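import Pool.Agent.H81.NCH.Stmts

/-!
# PRD: relative ranks at product gates
-/

set_option autoImplicit false

namespace Pool.Agent.H81.NCH

open Pool.Agent.H80

universe u

namespace PRD

theorem absw_add (h m : ℕ) (r : ℕ → ℕ → ℕ) {a c b : ℕ} (h1 : a ≤ c) (h2 : c ≤ b) :
    absw h m r a b = absw h m r a c + absw h m r c b := by
  simp only [absw]
  exact (Finset.sum_Ico_consecutive _ h1 h2).symm

theorem rho_nonneg {K : Type u} [Field K] (h m : ℕ) (r : ℕ → ℕ → ℕ) {n : ℕ} [NeZero n]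
    (a b : ℕ) (F : (ℕ → Fin n) → K) : 0 ≤ rho h m r a b F := by
  simp only [rho]
  positivity

theorem rho_mul {K : Type u} [Field K] (hRKM : RKMStmt.{u}) (h m n : ℕ) [NeZero n]
    (r : ℕ → ℕ → ℕ) (F G : (ℕ → Fin n) → K) {a c b : ℕ} (h1 : a ≤ c) (h2 : c ≤ b) :
    rho h m r a b (fun w => F w * G w) ≤ rho h m r a c F * rho h m r c b G := by
  have h3 := hRKM K h m n r F G
  have h4 : (rk h m r (fun w => F w * G w) : ℝ) ≤ rk h m r F * rk h m r G := by
    exact_mod_cast h3
  simp only [rho]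
  rw [absw_add h m r h1 h2, pow_add, div_mul_div_comm]
  exact div_le_div_of_nonneg_right h4 (by positivity)

theorem le_of_mul {x y : ℝ} {m k j : ℕ} (hm : 1 ≤ m) (hx : 0 ≤ x) (h : x * (m : ℝ) ^ k ≤ 1)
    (hj : j ≤ k) (hy : y = 1 / (m : ℝ) ^ j) : x ≤ y := by
  have hm0 : (1 : ℝ) ≤ m := by exact_mod_cast hm
  have hmp : (0 : ℝ) < m := by linarith
  rw [hy, le_div_iff₀ (by positivity)]
  refine le_trans ?_ h
  exact mul_le_mul_of_nonneg_left (pow_le_pow_right₀ hm0 hj) hx

theorem lam_01 (h m t : ℕ) : lam h m t = 0 ∨ lam h m t = 1 := by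
  simp only [lam]
  split_ifs
  · right; rfl
  · left; rfl

theorem psi_ne (h m : ℕ) (r : ℕ → ℕ → ℕ) (a b : ℕ) (hl : lam h m a ≠ lam h m b) :
    1 ≤ (psi h m r b - psi h m r a).natAbs := by
  simp only [psi]
  rcases lam_01 h m a with h1 | h1 <;> rcases lam_01 h m b with h2 | h2 <;>
    rw [h1, h2] at hl ⊢ <;> omega

end PRD

open PRD in
theorem prd_thm (hTYP : TYPStmt.{u}) (hRKI : RKIStmt.{u}) (hRKM : RKMStmt.{u}) : PRDStmt.{u} := by
  classical
  intro K _ h m n _ r D X x a hm hn hx hb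
  obtain ⟨hx0, l, q, hg⟩ := hx
  have hl : lft D x = l := by simp only [lft, hg]
  have hr : rgt D x = q := by simp only [rgt, hg]
  rw [hl, hr] at hb ⊢
  obtain ⟨-, -, h3⟩ := hTYP K n D X x a
  obtain ⟨-, -, -, h4⟩ := h3 hx0
  obtain ⟨hl0, hq0, hdeg, hFF⟩ := h4 l q hg
  have hF : FF X x a = fun w => FF X l a w * FF X q (a + X.deg l) w := funext hFF
  obtain ⟨hDl, -⟩ := hTYP K n D X l a
  obtain ⟨hDq, -⟩ := hTYP K n D X q (a + X.deg l)
  obtain ⟨hl1, hl2⟩ := hRKI K h m n r (FF X l a) a (a + X.deg l) hm hn (by omega) (by omega) hDl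
  obtain ⟨hq1, hq2⟩ := hRKI K h m n r (FF X q (a + X.deg l)) (a + X.deg l)
    (a + X.deg l + X.deg q) hm hn (by omega) hb hDq
  have hmul : rho h m r a (a + X.deg x) (FF X x a) ≤ rho h m r a (a + X.deg l) (FF X l a) *
      rho h m r (a + X.deg l) (a + X.deg l + X.deg q) (FF X q (a + X.deg l)) := by
    rw [hF, hdeg, ← add_assoc]
    exact rho_mul hRKM h m n r _ _ (by omega) (by omega)
  have nl := rho_nonneg h m r a (a + X.deg l) (FF X l a)
  have nq := rho_nonneg h m r (a + X.deg l) (a + X.deg l + X.deg q) (FF X q (a + X.deg l))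
  refine ⟨hdeg, hl0, hq0, ?_, ?_⟩
  · intro hA
    refine hmul.trans ?_
    have hmK : (0 : ℝ) ≤ 1 / (m : ℝ) ^ KK h := by positivity
    by_cases h5 : |psi h m r a - psi h m r (a + X.deg l)| < (KK h : ℤ)
    · have h6 : ¬ |psi h m r (a + X.deg l) - psi h m r (a + X.deg l + X.deg q)| < (KK h : ℤ) :=
        fun h7 => hA ⟨h5, h7⟩
      have h7 : KK h ≤ (psi h m r (a + X.deg l + X.deg q) - psi h m r (a + X.deg l)).natAbs := by
        rw [abs_sub_comm, Int.abs_eq_natAbs] at h6
        omega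
      have h8 := le_of_mul hm nq hq2 h7 rfl
      calc _ ≤ 1 * (1 / (m : ℝ) ^ KK h) := mul_le_mul hl1 h8 nq zero_le_one
        _ = _ := one_mul _
    · have h7 : KK h ≤ (psi h m r (a + X.deg l) - psi h m r a).natAbs := by
        rw [abs_sub_comm, Int.abs_eq_natAbs] at h5
        omega
      have h8 := le_of_mul hm nl hl2 h7 rfl
      calc _ ≤ (1 / (m : ℝ) ^ KK h) * 1 := mul_le_mul h8 hq1 nq hmK
        _ = _ := mul_one _
  · intro e i hA hS
    have hg : gfac h m r e i a (a + X.deg l) (a + X.deg l + X.deg q) =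
        if Gain h m a (a + X.deg l) (a + X.deg l + X.deg q) then 1 / (m : ℝ) else 1 := by
      simp only [gfac]
      rw [if_pos ⟨hb, hA, hS⟩]
    have hgl : rho h m r a (a + X.deg l) (FF X l a) ≤
        gfac h m r e i a (a + X.deg l) (a + X.deg l + X.deg q) := by
      rw [hg]
      split_ifs with hG
      · exact le_of_mul hm nl hl2 (psi_ne h m r a (a + X.deg l) hG.1) (by rw [pow_one])
      · exact hl1
    have hgq : rho h m r (a + X.deg l) (a + X.deg l + X.deg q) (FF X q (a + X.deg l)) ≤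
        gfac h m r e i a (a + X.deg l) (a + X.deg l + X.deg q) := by
      rw [hg]
      split_ifs with hG
      · exact le_of_mul hm nq hq2 (psi_ne h m r _ _ hG.2) (by rw [pow_one])
      · exact hq1
    constructor
    · refine hmul.trans ?_
      rw [mul_comm]
      exact mul_le_mul_of_nonneg_right hgq nl
    · exact hmul.trans (mul_le_mul_of_nonneg_right hgl nq)

end Pool.Agent.H81.NCH
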